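import Mathlib

/-!
# Monotone intrinsic-volume preserving symmetrizations do not exist for dim H at most n - 2
-/

namespace Pool.Agent.Results.MP_b62b68_gt.NoSymmetrization

open MeasureTheory Module Set Filter Topology
open scoped ENNReal

/-- Euclidean space of dimension `n`. -/
abbrev E (n : ℕ) : Type := EuclideanSpace ℝ (Fin n)

/-- The orthogonal group `O(n)`, as a group of matrices. -/
abbrev O (n : ℕ) : Type := ↥(Matrix.orthogonalGroup (Fin n) ℝ)

instance measO (n : ℕ) : MeasurableSpace (O n) := borel _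

instance borelO (n : ℕ) : BorelSpace (O n) := ⟨rfl⟩

instance compactO (n : ℕ) : CompactSpace (O n) := by
  refine isCompact_iff_compactSpace.1 ?_
  have h1 : IsCompact (Set.univ.pi (fun _ : Fin n => Set.univ.pi (fun _ : Fin n =>
      Metric.closedBall (0 : ℝ) 1))) :=
    isCompact_univ_pi fun _ => isCompact_univ_pi fun _ => isCompact_closedBall 0 1
  refine IsCompact.of_isClosed_subset h1 (isClosed_unitary (R := Matrix (Fin n) (Fin n) ℝ)) ?_
  intro u hu i _ k _
  rw [mem_closedBall_zero_iff]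
  exact entry_norm_bound_of_unitary hu i k

/-- The Haar probability measure of the orthogonal group. -/
noncomputable def haarO (n : ℕ) : Measure (O n) := Measure.haarMeasure ⊤

instance (n : ℕ) : (haarO n).IsHaarMeasure := by unfold haarO; infer_instance

instance (n : ℕ) : IsProbabilityMeasure (haarO n) := ⟨by
  unfold haarO
  exact Measure.haarMeasure_self⟩

/-- The image under `g` of the span of the first `j` coordinate vectors, that is, the span of the
first `j` columns of `g`. For `g` distributed according to the Haar probability measure of `O(n)`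
this is a random element of the Grassmannian `G_{n,j}` with law `σ_{n,j}`. -/
def plane (n j : ℕ) (g : O n) : Submodule ℝ (E n) :=
  Submodule.span ℝ {x | ∃ k : Fin n, (k : ℕ) < j ∧ ∀ i, x i = g.1 i k}

/-- The orthogonal projection `K|W` of the set `K` onto the subspace `W`. -/
noncomputable def proj {F : Type} [NormedAddCommGroup F] [InnerProductSpace ℝ F]
    (K : Set F) (W : Submodule ℝ F) [W.HasOrthogonalProjection] : Set F :=
  W.starProjection '' K

/-- `Vol_W`: the volume in the subspace `W` of a subset of `W`. -/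
noncomputable def volIn {F : Type} [NormedAddCommGroup F] [InnerProductSpace ℝ F]
    [FiniteDimensional ℝ F] [MeasurableSpace F] [BorelSpace F] (W : Submodule ℝ F) (S : Set F) :
    ℝ≥0∞ :=
  volume {y : W | (y : F) ∈ S}

/-- The `j`-th intrinsic volume, by Kubota's formula: the average over the Grassmannian of the
`j`-dimensional volumes of the orthogonal projections, divided by `n choose j`. -/
noncomputable def V (n j : ℕ) (K : Set (E n)) : ℝ≥0∞ :=
  (n.choose j : ℝ≥0∞)⁻¹ *
    ∫⁻ g, volIn (plane n j g) (proj K (plane n j g)) ∂(haarO n)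

/-- The columns of `g`. -/
def col {n : ℕ} (g : O n) (k : Fin n) : E n := WithLp.toLp 2 (fun i => g.1 i k)

theorem col_orthonormal {n : ℕ} (g : O n) : Orthonormal ℝ (col g) := by
  rw [orthonormal_iff_ite]
  intro k l
  have h1 : (g.1.transpose * g.1) k l = if k = l then 1 else 0 := by
    have := (Matrix.mem_orthogonalGroup_iff' (Fin n) ℝ).1 g.2
    rw [this, Matrix.one_apply]
  rw [← h1, Matrix.mul_apply, PiLp.inner_apply]
  refine Finset.sum_congr rfl fun i _ => ?_
  simp [col, mul_comm]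

theorem plane_eq {n j : ℕ} (hj : j ≤ n) (g : O n) :
    plane n j g = Submodule.span ℝ (Set.range (fun k : Fin j => col g (Fin.castLE hj k))) := by
  unfold plane
  congr 1
  ext x
  constructor
  · rintro ⟨k, hk, hx⟩
    refine ⟨⟨k, hk⟩, ?_⟩
    ext i
    exact (hx i).symm
  · rintro ⟨k, rfl⟩
    exact ⟨Fin.castLE hj k, k.2, fun i => rfl⟩

/-- The columns form an orthonormal basis of the plane. -/
theorem exists_basis {n j : ℕ} (hj : j ≤ n) (g : O n) :
    ∃ b : OrthonormalBasis (Fin j) ℝ (plane n j g), ∀ k, (b k : E n) = col g (Fin.castLE hj k) := by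
  have hmem : ∀ k : Fin j, col g (Fin.castLE hj k) ∈ plane n j g := by
    intro k
    rw [plane_eq hj]
    exact Submodule.subset_span ⟨k, rfl⟩
  have hon : Orthonormal ℝ (fun k : Fin j => col g (Fin.castLE hj k)) :=
    (col_orthonormal g).comp _ (Fin.castLE_injective hj)
  let v : Fin j → plane n j g := fun k => ⟨col g (Fin.castLE hj k), hmem k⟩
  have hv : Orthonormal ℝ v := by
    rw [orthonormal_iff_ite] at hon ⊢
    exact hon
  have hsp : ⊤ ≤ Submodule.span ℝ (Set.range v) := by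
    rintro ⟨x, hx⟩ -
    have h1 : (plane n j g).map (LinearMap.id) = (Submodule.span ℝ (Set.range v)).map
        (plane n j g).subtype := by
      rw [Submodule.map_id, Submodule.map_span, ← Set.range_comp]
      exact plane_eq hj g
    rw [Submodule.map_id] at h1
    have h2 : x ∈ (Submodule.span ℝ (Set.range v)).map (plane n j g).subtype := by
      rw [← h1]; exact hx
    obtain ⟨y, hy, hyx⟩ := h2
    have h3 : y = ⟨x, hx⟩ := Subtype.ext hyx
    rw [← h3]
    exact hy
  exact ⟨OrthonormalBasis.mk hv hsp, fun k => by simp [v]⟩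

/-- The projections in coordinates. -/
noncomputable def A (n j : ℕ) (hj : j ≤ n) (g : O n) : E n →L[ℝ] EuclideanSpace ℝ (Fin j) :=
  LinearMap.toContinuousLinearMap (Matrix.toEuclideanLin
    (g.1.transpose.submatrix (Fin.castLE hj) id))

theorem A_apply {n j : ℕ} (hj : j ≤ n) (g : O n) (x : E n) (k : Fin j) :
    A n j hj g x k = inner ℝ (col g (Fin.castLE hj k)) x := by
  unfold A
  rw [LinearMap.coe_toContinuousLinearMap', Matrix.ofLp_toLpLin, Matrix.toLin'_apply,
    Matrix.mulVec, dotProduct, PiLp.inner_apply]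
  refine Finset.sum_congr rfl fun i _ => ?_
  simp [col, mul_comm]

theorem A_repr {n j : ℕ} (hj : j ≤ n) (g : O n)
    (b : OrthonormalBasis (Fin j) ℝ (plane n j g))
    (hb : ∀ k, (b k : E n) = col g (Fin.castLE hj k)) (x : E n) :
    A n j hj g x = b.repr ((plane n j g).orthogonalProjectionOnto x) := by
  ext k
  rw [A_apply, b.repr_apply_apply, Submodule.inner_orthogonalProjectionOnto_eq_of_mem_left, hb]

theorem A_norm {n j : ℕ} (hj : j ≤ n) (g : O n) (x : E n) : ‖A n j hj g x‖ ≤ ‖x‖ := by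
  obtain ⟨b, hb⟩ := exists_basis hj g
  rw [A_repr hj g b hb, LinearIsometryEquiv.norm_map]
  exact (plane n j g).norm_orthogonalProjectionOnto_apply_le x

theorem A_continuous {n j : ℕ} (hj : j ≤ n) : Continuous (A n j hj) := by
  unfold A
  have h1 : Continuous (fun M : Matrix (Fin j) (Fin n) ℝ =>
      LinearMap.toContinuousLinearMap (Matrix.toEuclideanLin M)) :=
    LinearMap.continuous_of_finiteDimensional
      ((LinearMap.toContinuousLinearMap (𝕜 := ℝ) (E := E n)
        (F' := EuclideanSpace ℝ (Fin j))).toLinearMap ∘ₗ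
        (Matrix.toEuclideanLin (𝕜 := ℝ) (m := Fin j) (n := Fin n)).toLinearMap)
  refine h1.comp ?_
  have h2 : Continuous (fun g : O n => (g.1 : Matrix (Fin n) (Fin n) ℝ)) :=
    continuous_subtype_val
  exact (h2.matrix_transpose).matrix_submatrix _ _

theorem vol_proj {n j : ℕ} (hj : j ≤ n) (g : O n) (K : Set (E n)) :
    volIn (plane n j g) (proj K (plane n j g)) = volume (A n j hj g '' K) := by
  obtain ⟨b, hb⟩ := exists_basis hj g
  have h1 : {y : plane n j g | (y : E n) ∈ proj K (plane n j g)} = ⇑b.repr ⁻¹' (A n j hj g '' K) := by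
    ext y
    simp only [proj, Set.mem_ofPred_eq, Set.mem_preimage, Set.mem_image]
    constructor
    · rintro ⟨x, hx, hxy⟩
      refine ⟨x, hx, ?_⟩
      rw [A_repr hj g b hb]
      congr 1
      exact Subtype.ext hxy
    · rintro ⟨x, hx, hxy⟩
      refine ⟨x, hx, ?_⟩
      rw [A_repr hj g b hb] at hxy
      exact congrArg Subtype.val (b.repr.injective hxy)
  unfold volIn
  rw [h1]
  exact b.repr.measurePreserving.measure_preimage_emb b.repr.toHomeomorph.measurableEmbedding _

/-! ### Properties of the intrinsic volumes -/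

theorem V_eq {n j : ℕ} (hj : j ≤ n) (K : Set (E n)) :
    V n j K = (n.choose j : ℝ≥0∞)⁻¹ * ∫⁻ g, volume (A n j hj g '' K) ∂(haarO n) := by
  unfold V
  simp only [vol_proj hj]

theorem const_ne_zero (n j : ℕ) : (n.choose j : ℝ≥0∞)⁻¹ ≠ 0 := by simp

theorem const_ne_top {n j : ℕ} (hj : j ≤ n) : (n.choose j : ℝ≥0∞)⁻¹ ≠ ∞ := by
  have : n.choose j ≠ 0 := (Nat.choose_pos hj).ne'
  simpa using this

theorem V_mono {n j : ℕ} {K L : Set (E n)} (h : K ⊆ L) : V n j K ≤ V n j L := by
  unfold V volIn proj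
  gcongr

theorem lint_lt_top {n j : ℕ} (hj : j ≤ n) {K : Set (E n)} (hK : Bornology.IsBounded K) :
    ∫⁻ g, volume (A n j hj g '' K) ∂(haarO n) < ∞ := by
  obtain ⟨R, hR⟩ := hK.subset_closedBall 0
  have h1 : ∀ g : O n, volume (A n j hj g '' K) ≤
      volume (Metric.closedBall (0 : EuclideanSpace ℝ (Fin j)) R) := by
    intro g
    refine measure_mono ?_
    rintro _ ⟨x, hx, rfl⟩
    have := hR hx
    rw [mem_closedBall_zero_iff] at this ⊢
    exact (A_norm hj g x).trans this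
  refine (lintegral_mono h1).trans_lt ?_
  rw [lintegral_const, measure_univ, mul_one]
  exact measure_closedBall_lt_top

theorem V_lt_top {n j : ℕ} (hj : j ≤ n) {K : Set (E n)} (hK : Bornology.IsBounded K) :
    V n j K < ∞ := by
  rw [V_eq hj]
  exact ENNReal.mul_lt_top (const_ne_top hj).lt_top (lint_lt_top hj hK)

theorem measurable_vol {n j : ℕ} (hj : j ≤ n) {K : Set (E n)} (hK : IsCompact K) :
    Measurable (fun g : O n => volume (A n j hj g '' K)) := by
  refine UpperSemicontinuous.measurable ?_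
  intro g y hy
  have h1 : IsCompact (A n j hj g '' K) := hK.image (A n j hj g).continuous
  have h2 := tendsto_measure_cthickening_of_isCompact (μ := volume) h1
  have h3 : ∀ᶠ r in 𝓝 (0 : ℝ), volume (Metric.cthickening r (A n j hj g '' K)) < y :=
    h2.eventually (gt_mem_nhds hy)
  obtain ⟨δ, hδ, h4⟩ := Metric.eventually_nhds_iff.1 h3
  obtain ⟨R, hR⟩ := hK.isBounded.subset_closedBall 0
  have h5 : Tendsto (fun g' : O n => ‖A n j hj g' - A n j hj g‖ * (|R| + 1)) (𝓝 g)
      (𝓝 (‖A n j hj g - A n j hj g‖ * (|R| + 1))) := by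
    refine Continuous.tendsto ?_ g
    exact (((A_continuous hj).sub continuous_const).norm).mul continuous_const
  rw [sub_self, norm_zero, zero_mul] at h5
  filter_upwards [h5.eventually (gt_mem_nhds (half_pos hδ))] with g' hg'
  refine lt_of_le_of_lt (measure_mono ?_) (h4 (y := δ / 2) ?_)
  · rintro _ ⟨x, hx, rfl⟩
    refine Metric.mem_cthickening_of_dist_le _ (A n j hj g x) _ _ ⟨x, hx, rfl⟩ ?_
    rw [dist_eq_norm, ← sub_apply]
    refine (ContinuousLinearMap.le_opNorm _ _).trans (le_trans ?_ hg'.le)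
    have := hR hx
    rw [mem_closedBall_zero_iff] at this
    gcongr
    linarith [le_abs_self R]
  · rw [Real.dist_eq, sub_zero, abs_of_pos (half_pos hδ)]
    linarith

theorem V_iInter {n j : ℕ} (hj : j ≤ n) {K : ℕ → Set (E n)} (hK : ∀ m, IsCompact (K m))
    (hanti : Antitone K) : V n j (⋂ m, K m) = ⨅ m, V n j (K m) := by
  simp only [V_eq hj]
  have h1 : ∀ g : O n, volume (A n j hj g '' (⋂ m, K m)) = ⨅ m, volume (A n j hj g '' (K m)) := by
    intro g
    have h2 : A n j hj g '' (⋂ m, K m) = ⋂ m, A n j hj g '' (K m) := by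
      refine (Set.image_iInter_subset _ _).antisymm ?_
      intro y hy
      rw [Set.mem_iInter] at hy
      have h3 : (⋂ m, (K m ∩ (A n j hj g) ⁻¹' {y})).Nonempty := by
        refine IsCompact.nonempty_iInter_of_sequence_nonempty_isCompact_isClosed _ ?_ ?_ ?_ ?_
        · intro m
          exact Set.inter_subset_inter_left _ (hanti (Nat.le_succ m))
        · intro m
          obtain ⟨x, hx, hxy⟩ := hy m
          exact ⟨x, hx, hxy⟩
        · exact (hK 0).inter_right (isClosed_singleton.preimage (A n j hj g).continuous)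
        · intro m
          exact (hK m).isClosed.inter (isClosed_singleton.preimage (A n j hj g).continuous)
      obtain ⟨x, hx⟩ := h3
      rw [Set.mem_iInter] at hx
      exact ⟨x, Set.mem_iInter.2 fun m => (hx m).1, (hx 0).2⟩
    rw [h2]
    refine Antitone.measure_iInter ?_ ?_ ?_
    · intro a b hab
      exact Set.image_mono (hanti hab)
    · intro m
      exact ((hK m).image (A n j hj g).continuous).isClosed.measurableSet.nullMeasurableSet
    · exact ⟨0, ((hK 0).image (A n j hj g).continuous).measure_lt_top.ne⟩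
  simp only [h1]
  rw [lintegral_iInf (fun m => measurable_vol hj (hK m)) ?_ (lint_lt_top hj (hK 0).isBounded).ne]
  · rw [ENNReal.mul_iInf_of_ne (const_ne_zero n j) (const_ne_top hj)]
  · intro a b hab g
    exact measure_mono (Set.image_mono (hanti hab))

/-- On the image of an injective linear map from a `j`-dimensional space, the intrinsic volume
`V j` is a positive multiple of the volume. -/
theorem V_linear {n j : ℕ} (hj : j ≤ n) {Y : Type} [NormedAddCommGroup Y] [NormedSpace ℝ Y]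
    [FiniteDimensional ℝ Y] [MeasurableSpace Y] [BorelSpace Y] (μ : Measure Y)
    [μ.IsAddHaarMeasure] (hY : finrank ℝ Y = j) (Φ : Y →ₗ[ℝ] E n)
    (hΦ : Function.Injective Φ) :
    ∃ c : ℝ≥0∞, c ≠ 0 ∧ c ≠ ∞ ∧ ∀ S : Set Y, V n j (Φ '' S) = c * μ S := by
  let L : EuclideanSpace ℝ (Fin j) ≃L[ℝ] Y := ContinuousLinearEquiv.ofFinrankEq (by simp [hY])
  let ν : Measure Y := Measure.map L volume
  have hν : ν.IsAddHaarMeasure := L.isAddHaarMeasure_map volume
  let κ : NNReal := Measure.addHaarScalarFactor ν μ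
  have hκ : ν = κ • μ := Measure.isAddLeftInvariant_eq_smul ν μ
  have hκ0 : κ ≠ 0 := (Measure.addHaarScalarFactor_pos_of_isAddHaarMeasure ν μ).ne'
  let Φc : Y →L[ℝ] E n := Φ.toContinuousLinearMap
  let M : O n → (Y →L[ℝ] Y) := fun g => (L : EuclideanSpace ℝ (Fin j) →L[ℝ] Y) ∘L
    ((A n j hj g) ∘L Φc)
  have hMc : Continuous M := by
    refine continuous_const.clm_comp ?_
    exact (A_continuous hj).clm_comp continuous_const
  have h1 : ∀ (g : O n) (S : Set Y), volume (A n j hj g '' (Φ '' S)) =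
      κ * (ENNReal.ofReal |(M g).det| * μ S) := by
    intro g S
    have h2 : volume (A n j hj g '' (Φ '' S)) = ν (L '' (A n j hj g '' (Φ '' S))) := by
      have h3 : ν (L '' (A n j hj g '' (Φ '' S))) =
          volume (L ⁻¹' (L '' (A n j hj g '' (Φ '' S)))) :=
        L.toHomeomorph.measurableEmbedding.map_apply _ _
      rw [h3, Set.preimage_image_eq _ L.injective]
    rw [h2, hκ]
    have h4 : (L '' (A n j hj g '' (Φ '' S))) = M g '' S := by
      simp only [Set.image_image]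
      rfl
    rw [h4, Measure.smul_apply, Measure.addHaar_image_continuousLinearMap, ENNReal.smul_def,
      smul_eq_mul]
  have hdet : Continuous (fun g => |(M g).det|) :=
    (ContinuousLinearMap.continuous_det.comp hMc).abs
  have hmeas : Measurable (fun g : O n => ENNReal.ofReal |(M g).det|) :=
    (ENNReal.continuous_ofReal.comp hdet).measurable
  have hV : ∀ S : Set Y, V n j (Φ '' S) =
      ((n.choose j : ℝ≥0∞)⁻¹ * (κ * ∫⁻ g, ENNReal.ofReal |(M g).det| ∂(haarO n))) * μ S := by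
    intro S
    rw [V_eq hj]
    simp only [h1]
    rw [lintegral_const_mul _ (hmeas.mul_const _), lintegral_mul_const _ hmeas]
    ring
  refine ⟨_, ?_, ?_, hV⟩
  · refine mul_ne_zero (const_ne_zero n j) (mul_ne_zero (by exact_mod_cast hκ0) ?_)
    intro h0
    rw [lintegral_eq_zero_iff hmeas] at h0
    have h2 : (fun g : O n => ENNReal.ofReal |(M g).det|) = 0 :=
      (Continuous.ae_eq_iff_eq (haarO n) (ENNReal.continuous_ofReal.comp hdet)
        continuous_const).1 h0
    -- an orthogonal matrix whose first columns span the range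
    let F : Submodule ℝ (E n) := LinearMap.range Φ
    have hF : finrank ℝ F = j := by
      rw [LinearMap.finrank_range_of_inj hΦ, hY]
    let bF := (stdOrthonormalBasis ℝ F).reindex (finCongr hF)
    let v : Fin n → E n := fun k => if h : (k : ℕ) < j then (bF ⟨k, h⟩ : E n) else 0
    have hv : Orthonormal ℝ (({k : Fin n | (k : ℕ) < j} : Set (Fin n)).domRestrict v) := by
      have h3 : Orthonormal ℝ (fun k : Fin j => (bF k : E n)) := by
        have := bF.orthonormal
        rw [orthonormal_iff_ite] at this ⊢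
        exact this
      have h4 : (({k : Fin n | (k : ℕ) < j} : Set (Fin n)).domRestrict v) =
          (fun k : Fin j => (bF k : E n)) ∘
            (fun k : ({k : Fin n | (k : ℕ) < j} : Set (Fin n)) => ⟨(k.1 : ℕ), k.2⟩) := by
        ext1 k
        have hk : (k.1 : ℕ) < j := k.2
        simp [v, hk]
      rw [h4]
      refine h3.comp _ ?_
      intro x y hxy
      simp only [Fin.mk.injEq] at hxy
      exact Subtype.ext (Fin.ext hxy)
    obtain ⟨b, hb⟩ := hv.exists_orthonormalBasis_extension_of_card_eq (by simp)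
    let g : O n := ⟨(EuclideanSpace.basisFun (Fin n) ℝ).toBasis.toMatrix b,
      OrthonormalBasis.toMatrix_orthonormalBasis_mem_unitary _ _⟩
    have hg : ∀ k, col g k = b k := by
      intro k
      ext i
      simp [col, g, Basis.toMatrix_apply]
    have hcol : ∀ k : Fin j, col g (Fin.castLE hj k) = bF k := by
      intro k
      have hk : ((Fin.castLE hj k : Fin n) : ℕ) < j := k.2
      rw [hg, hb _ hk]
      simp [v]
    have hA : ∀ y, A n j hj g (Φ y) = bF.repr ⟨Φ y, LinearMap.mem_range_self Φ y⟩ := by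
      intro y
      ext k
      rw [A_apply, hcol, bF.repr_apply_apply]
      rfl
    have hinj : Function.Injective (M g) := by
      intro y y' hyy
      have h3 : A n j hj g (Φ y) = A n j hj g (Φ y') := L.injective hyy
      rw [hA, hA] at h3
      have h4 := bF.repr.injective h3
      exact hΦ (congrArg Subtype.val h4)
    have hdet0 : (M g).det ≠ 0 := by
      have h3 : IsUnit ((M g : Y →L[ℝ] Y) : Y →ₗ[ℝ] Y) :=
        (LinearMap.isUnit_iff_ker_eq_bot _).2 (LinearMap.ker_eq_bot.2 hinj)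
      exact ((LinearMap.isUnit_iff_isUnit_det _).1 h3).ne_zero
    have h6 := congrFun h2 g
    simp only [Pi.zero_apply, ENNReal.ofReal_eq_zero, abs_nonpos_iff] at h6
    exact hdet0 h6
  · have h2 := hV (Metric.ball 0 1)
    intro htop
    rw [htop, ENNReal.top_mul (Metric.measure_ball_pos μ 0 one_pos).ne'] at h2
    refine (V_lt_top hj ?_).ne h2
    have h3 : Φ '' (Metric.ball 0 1) = Φc '' (Metric.ball 0 1) := rfl
    rw [h3]
    refine (IsCompact.isBounded (s := Φc '' Metric.closedBall 0 1) ?_).subset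
      (Set.image_mono Metric.ball_subset_closedBall)
    have := FiniteDimensional.proper ℝ Y
    exact (isCompact_closedBall 0 1).image Φc.continuous

/-! ### Symmetric sets and symmetrizations -/

/-- A set is `H`-symmetric if it is invariant under the reflection `x ↦ 2 (x|H) - x`. -/
def HSymm {F : Type} [NormedAddCommGroup F] [InnerProductSpace ℝ F] (H : Submodule ℝ F)
    [H.HasOrthogonalProjection] (S : Set F) : Prop :=
  (fun x => (2 : ℝ) • H.starProjection x - x) '' S = S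

theorem refl_eq {n : ℕ} (H : Submodule ℝ (E n)) (x : E n) :
    (2 : ℝ) • H.starProjection x - x = H.reflection x := by
  rw [Submodule.reflection_apply, ofNat_smul_eq_nsmul]

theorem hsymm_iff {n : ℕ} (H : Submodule ℝ (E n)) (S : Set (E n)) :
    HSymm H S ↔ ∀ x ∈ S, H.reflection x ∈ S := by
  unfold HSymm
  simp only [refl_eq]
  constructor
  · intro h x hx
    rw [← h]
    exact ⟨x, hx, rfl⟩
  · intro h
    refine Set.Subset.antisymm ?_ ?_
    · rintro _ ⟨x, hx, rfl⟩
      exact h x hx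
    · intro x hx
      exact ⟨H.reflection x, h x hx, H.reflection_reflection x⟩

/-- The compact convex sets. -/
def compactConvex (n : ℕ) : Set (Set (E n)) := {K | IsCompact K ∧ Convex ℝ K}

/-- The nonempty compact convex sets. -/
def nonemptyCompactConvex (n : ℕ) : Set (Set (E n)) :=
  {K | IsCompact K ∧ Convex ℝ K ∧ K.Nonempty}

/-- The convex bodies: compact convex sets with nonempty interior. -/
def convexBodies (n : ℕ) : Set (Set (E n)) :=
  {K | IsCompact K ∧ Convex ℝ K ∧ (interior K).Nonempty}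

/-- `D` is a symmetrization `𝓑 → 𝓑_H` which is monotonic, `V j`-preserving and invariant on
`H`-symmetric sets. -/
structure GoodSymmetrization {n : ℕ} (𝓑 : Set (Set (E n))) (H : Submodule ℝ (E n)) (j : ℕ)
    (D : Set (E n) → Set (E n)) : Prop where
  maps : ∀ K ∈ 𝓑, D K ∈ 𝓑 ∧ HSymm H (D K)
  monotonic : ∀ K ∈ 𝓑, ∀ L ∈ 𝓑, K ⊆ L → D K ⊆ D L
  preserves : ∀ K ∈ 𝓑, V n j (D K) = V n j K
  invariant : ∀ K ∈ 𝓑, HSymm H K → D K = K

/-- The properties of a map on all nonempty compact convex sets that lead to a contradiction. -/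
structure Ext {n : ℕ} (H : Submodule ℝ (E n)) (j : ℕ) (D : Set (E n) → Set (E n)) : Prop where
  compact : ∀ K ∈ nonemptyCompactConvex n, IsCompact (D K)
  convex : ∀ K ∈ nonemptyCompactConvex n, Convex ℝ (D K)
  symm : ∀ K ∈ nonemptyCompactConvex n, ∀ x ∈ D K, H.reflection x ∈ D K
  mono : ∀ K ∈ nonemptyCompactConvex n, ∀ L ∈ nonemptyCompactConvex n, K ⊆ L → D K ⊆ D L
  pres : ∀ K ∈ nonemptyCompactConvex n, V n j (D K) = V n j K
  inv : ∀ K ∈ nonemptyCompactConvex n, (∀ x ∈ K, H.reflection x ∈ K) → D K = K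

/-- closed neighbourhoods -/
def thick {n : ℕ} (m : ℕ) (K : Set (E n)) : Set (E n) := Metric.cthickening (1 / (m + 1 : ℝ)) K

theorem thick_body {n : ℕ} (m : ℕ) {K : Set (E n)} (hK : K ∈ nonemptyCompactConvex n) :
    thick m K ∈ convexBodies n := by
  obtain ⟨h1, h2, h3⟩ := hK
  have hpos : (0 : ℝ) < 1 / (m + 1 : ℝ) := by positivity
  refine ⟨h1.cthickening, h2.cthickening _, ?_⟩
  exact (h3.mono (Metric.self_subset_thickening hpos K)).mono
    (Metric.thickening_subset_interior_cthickening _ _)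

theorem thick_anti {n : ℕ} (K : Set (E n)) : Antitone (fun m => thick m K) := by
  intro a b hab
  refine Metric.cthickening_mono ?_ K
  have : (a : ℝ) ≤ b := by exact_mod_cast hab
  gcongr

theorem thick_iInter {n : ℕ} {K : Set (E n)} (hK : IsClosed K) : (⋂ m, thick m K) = K := by
  refine Set.Subset.antisymm ?_ ?_
  · intro x hx
    rw [Set.mem_iInter] at hx
    have h1 : x ∈ Metric.cthickening 0 K := by
      rw [Metric.mem_cthickening_iff]
      exact ge_of_tendsto' (ENNReal.tendsto_ofReal tendsto_one_div_add_atTop_nhds_zero_nat)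
        (fun m => (Metric.mem_cthickening_iff.1 (hx m)))
    rw [Metric.cthickening_zero, hK.closure_eq] at h1
    exact h1
  · exact Set.subset_iInter fun m => Metric.self_subset_cthickening K

theorem thick_symm {n : ℕ} (H : Submodule ℝ (E n)) (m : ℕ) {K : Set (E n)}
    (hK : ∀ x ∈ K, H.reflection x ∈ K) : ∀ x ∈ thick m K, H.reflection x ∈ thick m K := by
  intro x hx
  unfold thick at hx ⊢
  rw [Metric.mem_cthickening_iff] at hx ⊢
  refine le_trans ?_ hx
  have h1 := Metric.infEDist_image H.reflection.isometry (x := x) (t := K)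
  rw [← h1]
  refine Metric.infEDist_anti ?_
  rintro _ ⟨y, hy, rfl⟩
  exact hK y hy

theorem exists_ext {n j : ℕ} (hj : j ≤ n) (H : Submodule ℝ (E n)) (D : Set (E n) → Set (E n))
    (h1 : ∀ K ∈ convexBodies n, IsCompact (D K) ∧ Convex ℝ (D K) ∧ HSymm H (D K))
    (h2 : ∀ K ∈ convexBodies n, ∀ L ∈ convexBodies n, K ⊆ L → D K ⊆ D L)
    (h3 : ∀ K ∈ convexBodies n, V n j (D K) = V n j K)
    (h4 : ∀ K ∈ convexBodies n, HSymm H K → D K = K) :
    ∃ D', Ext H j D' := by
  refine ⟨fun K => ⋂ m, D (thick m K), ?_, ?_, ?_, ?_, ?_, ?_⟩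
  · intro K hK
    exact (h1 _ (thick_body 0 hK)).1.of_isClosed_subset
      (isClosed_iInter fun m => (h1 _ (thick_body m hK)).1.isClosed) (Set.iInter_subset _ 0)
  · intro K hK
    exact convex_iInter fun m => (h1 _ (thick_body m hK)).2.1
  · intro K hK x hx
    rw [Set.mem_iInter] at hx ⊢
    intro m
    exact (hsymm_iff H _).1 (h1 _ (thick_body m hK)).2.2 x (hx m)
  · intro K hK L hL hKL
    refine Set.iInter_mono fun m => ?_
    exact h2 _ (thick_body m hK) _ (thick_body m hL) (Metric.cthickening_subset_of_subset _ hKL)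
  · intro K hK
    have h5 : Antitone (fun m => D (thick m K)) := by
      intro a b hab
      exact h2 _ (thick_body b hK) _ (thick_body a hK) (thick_anti K hab)
    rw [V_iInter hj (fun m => (h1 _ (thick_body m hK)).1) h5]
    have h6 : V n j K = ⨅ m, V n j (thick m K) := by
      rw [← V_iInter hj (fun m => (thick_body m hK).1) (thick_anti K), thick_iInter hK.1.isClosed]
    rw [h6]
    exact iInf_congr fun m => h3 _ (thick_body m hK)
  · intro K hK hs
    have h5 : ∀ m, D (thick m K) = thick m K := fun m =>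
      h4 _ (thick_body m hK) ((hsymm_iff H _).2 (thick_symm H m hs))
    simp only [h5]
    exact thick_iInter hK.1.isClosed

/-! ### Parameter space, boxes and the tube lemma -/

/-- The parameter space: a plane times `ℝ ^ m`. -/
abbrev Y (m : ℕ) : Type := (ℝ × ℝ) × (Fin m → ℝ)

instance haar2 : (volume : Measure (ℝ × ℝ)).IsAddHaarMeasure :=
  Measure.prod.instIsAddHaarMeasure _ _

instance haarY (m : ℕ) : (volume : Measure (Y m)).IsAddHaarMeasure :=
  Measure.prod.instIsAddHaarMeasure _ _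

/-- A box. -/
def Bx (m : ℕ) (p q e : ℝ) : Set (Y m) :=
  (Icc (-p) q ×ˢ Icc (-e) e) ×ˢ (Icc (fun _ => -e) (fun _ => e))

theorem mem_Bx {m : ℕ} {p q e : ℝ} {u : Y m} : u ∈ Bx m p q e ↔
    ((-p ≤ u.1.1 ∧ u.1.1 ≤ q) ∧ (-e ≤ u.1.2 ∧ u.1.2 ≤ e)) ∧ ∀ k, -e ≤ u.2 k ∧ u.2 k ≤ e := by
  simp only [Bx, Set.mem_prod, Set.mem_Icc, Pi.le_def, forall_and]

theorem Bx_compact (m : ℕ) (p q e : ℝ) : IsCompact (Bx m p q e) :=
  (isCompact_Icc.prod isCompact_Icc).prod isCompact_Icc

theorem Bx_convex (m : ℕ) (p q e : ℝ) : Convex ℝ (Bx m p q e) :=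
  ((convex_Icc _ _).prod (convex_Icc _ _)).prod (convex_Icc _ _)

theorem Bx_vol (m : ℕ) (p q e : ℝ) : volume (Bx m p q e) =
    (ENNReal.ofReal (q + p) * ENNReal.ofReal (2 * e)) * ENNReal.ofReal (2 * e) ^ m := by
  unfold Bx
  rw [Measure.volume_eq_prod, Measure.prod_prod, Measure.volume_eq_prod, Measure.prod_prod,
    Real.volume_Icc, Real.volume_Icc, Real.volume_Icc_pi]
  simp only [Finset.prod_const, Finset.card_univ, Fintype.card_fin]
  rw [show q - -p = q + p by ring, show e - -e = 2 * e by ring]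

theorem ext_zero {n j : ℕ} {H : Submodule ℝ (E n)} {D : Set (E n) → Set (E n)} (hD : Ext H j D)
    {K : Set (E n)} (hK : K ∈ nonemptyCompactConvex n) (h0 : (0 : E n) ∈ K) : (0 : E n) ∈ D K := by
  have h1 : ({0} : Set (E n)) ∈ nonemptyCompactConvex n :=
    ⟨isCompact_singleton, convex_singleton 0, Set.singleton_nonempty 0⟩
  have h2 : D {0} = {0} := by
    refine hD.inv _ h1 ?_
    intro x hx
    rw [Set.mem_singleton_iff] at hx ⊢
    rw [hx, map_zero]
  have h3 := hD.mono _ h1 _ hK (Set.singleton_subset_iff.2 h0)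
  rw [h2] at h3
  exact h3 rfl

theorem image_NC {n : ℕ} {Z : Type} [NormedAddCommGroup Z] [NormedSpace ℝ Z]
    [FiniteDimensional ℝ Z] (Φ : Z →ₗ[ℝ] E n) {S : Set Z} (h1 : IsCompact S) (h2 : Convex ℝ S)
    (h3 : S.Nonempty) : Φ '' S ∈ nonemptyCompactConvex n :=
  ⟨h1.image Φ.continuous_of_finiteDimensional, h2.linear_image Φ, h3.image _⟩

theorem tube {n m : ℕ} (hj : m + 2 ≤ n) {H : Submodule ℝ (E n)} {D : Set (E n) → Set (E n)}
    (hD : Ext H (m + 2) D) (Φ : Y m →ₗ[ℝ] E n) (hΦ : Function.Injective Φ) (σ : Fin m → ℝ)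
    (hσ : ∀ k, |σ k| = 1) (hρ : ∀ z w, H.reflection (Φ (z, w)) = Φ (-z, σ * w))
    {K : Set (E n)} (hK : K ∈ nonemptyCompactConvex n) {p q η : ℝ} (hη : 0 < η) (hp : 0 ≤ p)
    (hpq : p ≤ q) (hsub : Φ '' (Bx m p q η) ⊆ K) {r : ℝ} (hr : 0 < r) (hr2 : 2 * r < p + q) :
    Φ ((r, 0), 0) ∈ D K := by
  have hY : finrank ℝ (Y m) = m + 2 := by simp [add_comm]
  obtain ⟨c, hc0, hct, hc⟩ := V_linear hj (volume : Measure (Y m)) hY Φ hΦ
  have hσ2 : ∀ k (t e : ℝ), (-e ≤ t ∧ t ≤ e) → (-e ≤ σ k * t ∧ σ k * t ≤ e) := by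
    intro k t e ht
    rcases abs_eq (zero_le_one) |>.1 (hσ k) with h | h
    · rw [h, one_mul]; exact ht
    · rw [h]; constructor <;> linarith [ht.1, ht.2]
  have h0K : (0 : E n) ∈ K := by
    refine hsub ⟨0, ?_, map_zero Φ⟩
    rw [mem_Bx]
    refine ⟨⟨⟨?_, ?_⟩, ?_, ?_⟩, fun k => ⟨?_, ?_⟩⟩ <;> simp <;> linarith
  have h0D := ext_zero hD hK h0K
  -- a point close to the axis
  have key : ∀ e : ℝ, 0 < e → e ≤ η → ∃ (y : ℝ) (w : Fin m → ℝ), |y| ≤ e ∧ (∀ k, |w k| ≤ e) ∧
      Φ ((r, y), w) ∈ D K := by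
    intro e he heη
    have hSne : ∀ a b : ℝ, 0 ≤ a → 0 ≤ b → (Bx m a b e).Nonempty := by
      intro a b ha hb
      refine ⟨0, ?_⟩
      rw [mem_Bx]
      refine ⟨⟨⟨?_, ?_⟩, ?_, ?_⟩, fun k => ⟨?_, ?_⟩⟩ <;> simp <;> linarith
    have hS : Φ '' (Bx m p q e) ∈ nonemptyCompactConvex n :=
      image_NC Φ (Bx_compact m p q e) (Bx_convex m p q e) (hSne p q hp (hp.trans hpq))
    have hS' : Φ '' (Bx m q q e) ∈ nonemptyCompactConvex n :=
      image_NC Φ (Bx_compact m q q e) (Bx_convex m q q e)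
        (hSne q q (hp.trans hpq) (hp.trans hpq))
    have hSS' : Φ '' (Bx m p q e) ⊆ Φ '' (Bx m q q e) := by
      refine Set.image_mono ?_
      intro u hu
      rw [mem_Bx] at hu ⊢
      exact ⟨⟨⟨by linarith [hu.1.1.1], hu.1.1.2⟩, hu.1.2⟩, hu.2⟩
    have hSK : Φ '' (Bx m p q e) ⊆ K := by
      refine (Set.image_mono ?_).trans hsub
      intro u hu
      rw [mem_Bx] at hu ⊢
      exact ⟨⟨hu.1.1, by linarith [hu.1.2.1], by linarith [hu.1.2.2]⟩,
        fun k => ⟨by linarith [(hu.2 k).1], by linarith [(hu.2 k).2]⟩⟩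
    have hsym : D (Φ '' (Bx m q q e)) = Φ '' (Bx m q q e) := by
      refine hD.inv _ hS' ?_
      rintro _ ⟨⟨z, w⟩, hu, rfl⟩
      rw [hρ]
      refine ⟨_, ?_, rfl⟩
      rw [mem_Bx] at hu ⊢
      refine ⟨⟨⟨?_, ?_⟩, ?_, ?_⟩, fun k => hσ2 k _ _ (hu.2 k)⟩
      · have := hu.1.1.2; simp only [Prod.fst_neg] at *; linarith
      · have := hu.1.1.1; simp only [Prod.fst_neg] at *; linarith
      · have := hu.1.2.2; simp only [Prod.snd_neg] at *; linarith
      · have := hu.1.2.1; simp only [Prod.snd_neg] at *; linarith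
    have hDS : D (Φ '' (Bx m p q e)) ⊆ Φ '' (Bx m q q e) := by
      have := hD.mono _ hS _ hS' hSS'
      rwa [hsym] at this
    have hex : ∃ u ∈ Bx m q q e, Φ u ∈ D (Φ '' (Bx m p q e)) ∧ r < |u.1.1| := by
      by_contra hcon
      push Not at hcon
      have h1 : D (Φ '' (Bx m p q e)) ⊆ Φ '' (Bx m r r e) := by
        intro x hx
        obtain ⟨u, hu, rfl⟩ := hDS hx
        refine ⟨u, ?_, rfl⟩
        have h2 := abs_le.1 (hcon u hu hx)
        rw [mem_Bx] at hu ⊢
        exact ⟨⟨h2, hu.1.2⟩, hu.2⟩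
      have h2 := V_mono (j := m + 2) h1
      rw [hD.pres _ hS, hc, hc, Bx_vol, Bx_vol, ENNReal.mul_le_mul_iff_right hc0 hct] at h2
      have h3 : ENNReal.ofReal (2 * e) ≠ 0 := by
        simp only [ne_eq, ENNReal.ofReal_eq_zero, not_le]; linarith
      rw [ENNReal.mul_le_mul_iff_left (pow_ne_zero _ h3) (ENNReal.pow_ne_top ENNReal.ofReal_ne_top),
        ENNReal.mul_le_mul_iff_left h3 ENNReal.ofReal_ne_top,
        ENNReal.ofReal_le_ofReal_iff (by linarith)] at h2
      linarith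
    -- choose the sign
    have hex2 : ∃ u ∈ Bx m q q e, Φ u ∈ D (Φ '' (Bx m p q e)) ∧ r < u.1.1 := by
      obtain ⟨⟨z, w⟩, hu, hxD, hru⟩ := hex
      rcases lt_abs.1 hru with h | h
      · exact ⟨_, hu, hxD, h⟩
      · refine ⟨(-z, σ * w), ?_, ?_, ?_⟩
        · rw [mem_Bx] at hu ⊢
          refine ⟨⟨⟨?_, ?_⟩, ?_, ?_⟩, fun k => hσ2 k _ _ (hu.2 k)⟩
          · have := hu.1.1.2; simp only [Prod.fst_neg] at *; linarith
          · have := hu.1.1.1; simp only [Prod.fst_neg] at *; linarith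
          · have := hu.1.2.2; simp only [Prod.snd_neg] at *; linarith
          · have := hu.1.2.1; simp only [Prod.snd_neg] at *; linarith
        · rw [← hρ]
          exact hD.symm _ hS _ hxD
        · simpa using h
    obtain ⟨⟨⟨s, y⟩, w⟩, hu, hxD, hrs⟩ := hex2
    simp only at hrs
    have hs : 0 < s := hr.trans hrs
    have hxK := hD.mono _ hS _ hK hSK hxD
    rw [mem_Bx] at hu
    have hq1 : 0 ≤ r / s := by positivity
    have hq2 : r / s ≤ 1 := (div_le_one hs).2 hrs.le
    refine ⟨(r / s) * y, (r / s) • w, ?_, ?_, ?_⟩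
    · rw [abs_mul, abs_of_nonneg hq1]
      have : |y| ≤ e := abs_le.2 hu.1.2
      nlinarith [abs_nonneg y]
    · intro k
      rw [Pi.smul_apply, smul_eq_mul, abs_mul, abs_of_nonneg hq1]
      have : |w k| ≤ e := abs_le.2 (hu.2 k)
      nlinarith [abs_nonneg (w k)]
    · have h1 := (hD.convex _ hK) h0D hxK (a := 1 - r / s) (b := r / s) (by linarith) hq1 (by ring)
      rw [smul_zero, zero_add, ← map_smul] at h1
      have h2 : (r / s) • (((s, y), w) : Y m) = ((r, (r / s) * y), (r / s) • w) := by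
        ext
        · simp [div_mul_cancel₀ r hs.ne']
        · simp
        · simp
      rw [h2] at h1
      exact h1
  -- pass to the limit
  have key2 : ∀ i : ℕ, ∃ (y : ℝ) (w : Fin m → ℝ), |y| ≤ η * (1 / (i + 1 : ℝ)) ∧
      (∀ k, |w k| ≤ η * (1 / (i + 1 : ℝ))) ∧ Φ ((r, y), w) ∈ D K := by
    intro i
    refine key _ (by positivity) ?_
    have h1 : (1 / (i + 1 : ℝ)) ≤ 1 := by
      rw [div_le_one (by positivity)]
      have : (0 : ℝ) ≤ i := Nat.cast_nonneg i
      linarith
    nlinarith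
  choose y w hy hw hmem using key2
  have hlim0 : Tendsto (fun i : ℕ => η * (1 / (i + 1 : ℝ))) atTop (𝓝 0) := by
    have := (tendsto_one_div_add_atTop_nhds_zero_nat (𝕜 := ℝ)).const_mul η
    simpa using this
  have hylim : Tendsto y atTop (𝓝 0) := squeeze_zero_norm hy hlim0
  have hwlim : Tendsto w atTop (𝓝 0) := by
    rw [tendsto_pi_nhds]
    intro k
    exact squeeze_zero_norm (fun i => hw i k) hlim0
  have hlim : Tendsto (fun i => Φ ((r, y i), w i)) atTop (𝓝 (Φ ((r, 0), 0))) := by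
    refine (Φ.continuous_of_finiteDimensional.tendsto _).comp ?_
    exact (tendsto_const_nhds.prodMk_nhds hylim).prodMk_nhds hwlim
  exact (hD.compact _ hK).isClosed.mem_of_tendsto hlim (Eventually.of_forall hmem)

/-! ### The test body -/

/-- The `ℓ¹` norm. -/
def N {m : ℕ} (w : Fin m → ℝ) : ℝ := ∑ k, |w k|

theorem N_nonneg {m : ℕ} (w : Fin m → ℝ) : 0 ≤ N w := Finset.sum_nonneg fun _ _ => abs_nonneg _

theorem N_zero {m : ℕ} : N (0 : Fin m → ℝ) = 0 := by simp [N]

theorem N_continuous {m : ℕ} : Continuous (N : (Fin m → ℝ) → ℝ) := by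
  unfold N
  fun_prop

theorem N_smul {m : ℕ} (a : ℝ) (w : Fin m → ℝ) : N (a • w) = |a| * N w := by
  simp [N, abs_mul, Finset.mul_sum]

theorem N_add {m : ℕ} (w v : Fin m → ℝ) : N (w + v) ≤ N w + N v := by
  unfold N
  rw [← Finset.sum_add_distrib]
  exact Finset.sum_le_sum fun k _ => abs_add_le _ _

theorem N_coord {m : ℕ} (w : Fin m → ℝ) (k : Fin m) : |w k| ≤ N w :=
  Finset.single_le_sum (f := fun k => |w k|) (fun _ _ => abs_nonneg _) (Finset.mem_univ k)

theorem N_le {m : ℕ} {w : Fin m → ℝ} {e : ℝ} (h : ∀ k, |w k| ≤ e) : N w ≤ m * e := by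
  refine (Finset.sum_le_sum fun k _ => h k).trans (le_of_eq ?_)
  simp

theorem N_mul {m : ℕ} {σ : Fin m → ℝ} (hσ : ∀ k, |σ k| = 1) (w : Fin m → ℝ) :
    N (σ * w) = N w := by
  simp [N, abs_mul, hσ]

/-- The sublevel set of a linear functional plus the `ℓ¹` norm. -/
def Hs (m : ℕ) (α β : ℝ) : Set (Y m) := {u | α * u.1.1 + β * u.1.2 + N u.2 ≤ 1}

theorem Hs_closed (m : ℕ) (α β : ℝ) : IsClosed (Hs m α β) := by
  have hN := N_continuous (m := m)
  exact isClosed_le (by fun_prop) continuous_const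

theorem Hs_convex (m : ℕ) (α β : ℝ) : Convex ℝ (Hs m α β) := by
  intro u hu v hv a b ha hb hab
  simp only [Hs, Set.mem_ofPred_eq] at hu hv ⊢
  have h1 : N (a • u + b • v).2 ≤ a * N u.2 + b * N v.2 := by
    refine (N_add _ _).trans (le_of_eq ?_)
    simp only [Prod.smul_snd]
    rw [N_smul, N_smul, abs_of_nonneg ha, abs_of_nonneg hb]
  have h2 : (a • u + b • v).1.1 = a * u.1.1 + b * v.1.1 := by simp
  have h3 : (a • u + b • v).1.2 = a * u.1.2 + b * v.1.2 := by simp
  rw [h2, h3]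
  nlinarith

/-- The body `{g (x, y) + N w ≤ 1}`, `g` the gauge of the triangle with vertices
`(1,0)`, `(0,1)`, `(-1,-1)`. -/
def K0 (m : ℕ) : Set (Y m) := (Hs m 1 1 ∩ Hs m (-2) 1) ∩ Hs m 1 (-2)

theorem mem_K0 {m : ℕ} {u : Y m} : u ∈ K0 m ↔ u.1.1 + u.1.2 + N u.2 ≤ 1 ∧
    -2 * u.1.1 + u.1.2 + N u.2 ≤ 1 ∧ u.1.1 + -2 * u.1.2 + N u.2 ≤ 1 := by
  simp only [K0, Hs, Set.mem_inter_iff, Set.mem_ofPred_eq, one_mul, and_assoc]

theorem K0_convex (m : ℕ) : Convex ℝ (K0 m) :=
  ((Hs_convex m 1 1).inter (Hs_convex m (-2) 1)).inter (Hs_convex m 1 (-2))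

theorem K0_sub (m : ℕ) : K0 m ⊆ Bx m 1 1 1 := by
  intro u hu
  rw [mem_K0] at hu
  obtain ⟨h1, h2, h3⟩ := hu
  have h0 := N_nonneg u.2
  rw [mem_Bx]
  refine ⟨⟨⟨by linarith, by linarith⟩, by linarith, by linarith⟩, fun k => ?_⟩
  have := N_coord u.2 k
  exact abs_le.1 (by linarith)

theorem K0_compact (m : ℕ) : IsCompact (K0 m) :=
  (Bx_compact m 1 1 1).of_isClosed_subset
    (((Hs_closed m 1 1).inter (Hs_closed m (-2) 1)).inter (Hs_closed m 1 (-2))) (K0_sub m)

theorem K0_ne (m : ℕ) : (K0 m).Nonempty := by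
  refine ⟨0, ?_⟩
  rw [mem_K0]
  simp [N_zero]

/-- The linear map `((x, y), w) ↦ (x u + y v, w)`. -/
def Lm (m : ℕ) (u v : ℝ × ℝ) : Y m →ₗ[ℝ] Y m :=
  LinearMap.prodMap ((LinearMap.fst ℝ ℝ ℝ).smulRight u + (LinearMap.snd ℝ ℝ ℝ).smulRight v)
    LinearMap.id

theorem Lm_apply {m : ℕ} (u v : ℝ × ℝ) (x y : ℝ) (w : Fin m → ℝ) :
    Lm m u v ((x, y), w) = ((x * u.1 + y * v.1, x * u.2 + y * v.2), w) := by
  obtain ⟨u1, u2⟩ := u
  obtain ⟨v1, v2⟩ := v
  simp [Lm]

theorem Lm_det {m : ℕ} (u v : ℝ × ℝ) : LinearMap.det (Lm m u v) = u.1 * v.2 - u.2 * v.1 := by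
  unfold Lm
  rw [LinearMap.det_prodMap, LinearMap.det_id, mul_one]
  have h1 : (LinearMap.fst ℝ ℝ ℝ).smulRight u + (LinearMap.snd ℝ ℝ ℝ).smulRight v =
      Matrix.toLin (Basis.finTwoProd ℝ) (Basis.finTwoProd ℝ) !![u.1, v.1; u.2, v.2] := by
    ext <;> simp [Matrix.toLin_finTwoProd_apply]
  rw [h1, LinearMap.det_toLin, Matrix.det_fin_two_of]
  ring

theorem Lm_inj {m : ℕ} (u v : ℝ × ℝ) (h : u.1 * v.2 - u.2 * v.1 ≠ 0) :
    Function.Injective (Lm m u v) := by
  have h1 : IsUnit (LinearMap.det (Lm m u v)) := by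
    rw [Lm_det]
    exact isUnit_iff_ne_zero.2 h
  exact LinearMap.ker_eq_bot.1 ((LinearMap.isUnit_iff_ker_eq_bot _).1
    ((LinearMap.isUnit_iff_isUnit_det _).2 h1))

/-- The cone over a third of the triangle. -/
def P (m : ℕ) : Set (Y m) := {u | 0 ≤ u.1.1 ∧ 0 ≤ u.1.2 ∧ u.1.1 + u.1.2 + N u.2 ≤ 1}

/-- The same without one facet. -/
def P' (m : ℕ) : Set (Y m) := {u | 0 < u.1.1 ∧ 0 ≤ u.1.2 ∧ u.1.1 + u.1.2 + N u.2 ≤ 1}

theorem P'_meas (m : ℕ) : MeasurableSet (P' m) := by
  have hN := (N_continuous (m := m)).measurable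
  have h1 : Measurable (fun u : Y m => u.1.1 + u.1.2 + N u.2) := by fun_prop
  have h2 : Measurable (fun u : Y m => u.1.1) := by fun_prop
  have h3 : Measurable (fun u : Y m => u.1.2) := by fun_prop
  exact (measurableSet_lt measurable_const h2).inter
    ((measurableSet_le measurable_const h3).inter (measurableSet_le h1 measurable_const))

theorem P_vol (m : ℕ) : volume (P m) = volume (P' m) := by
  refine le_antisymm ?_ (measure_mono fun u hu => ⟨hu.1.le, hu.2⟩)
  have h1 : P m ⊆ P' m ∪ (LinearMap.ker ((LinearMap.fst ℝ ℝ ℝ) ∘ₗ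
      (LinearMap.fst ℝ (ℝ × ℝ) (Fin m → ℝ))) : Submodule ℝ (Y m)) := by
    intro u hu
    rcases hu.1.lt_or_eq with h | h
    · exact Or.inl ⟨h, hu.2⟩
    · right
      simp only [SetLike.mem_coe, LinearMap.mem_ker, LinearMap.comp_apply, LinearMap.fst_apply]
      exact h.symm
  refine (measure_mono h1).trans ((measure_union_le _ _).trans ?_)
  rw [Measure.addHaar_submodule, add_zero]
  intro htop
  have h2 : (((1, 0), 0) : Y m) ∈ (LinearMap.ker ((LinearMap.fst ℝ ℝ ℝ) ∘ₗ
      (LinearMap.fst ℝ (ℝ × ℝ) (Fin m → ℝ))) : Submodule ℝ (Y m)) := by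
    rw [htop]; trivial
  simp at h2

theorem P_sub (m : ℕ) : P m ⊆ K0 m := by
  intro u hu
  obtain ⟨h1, h2, h3⟩ := hu
  rw [mem_K0]
  exact ⟨h3, by linarith, by linarith⟩

theorem P_fin (m : ℕ) : volume (P m) ≠ ∞ :=
  ((measure_mono (P_sub m)).trans_lt (K0_compact m).measure_lt_top).ne

theorem P_pos (m : ℕ) : volume (P m) ≠ 0 := by
  have hN := N_continuous (m := m)
  have c1 : Continuous (fun u : Y m => u.1.1 + u.1.2 + N u.2) := by fun_prop
  have c2 : Continuous (fun u : Y m => u.1.1) := by fun_prop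
  have c3 : Continuous (fun u : Y m => u.1.2) := by fun_prop
  have h1 : IsOpen {u : Y m | 0 < u.1.1 ∧ 0 < u.1.2 ∧ u.1.1 + u.1.2 + N u.2 < 1} :=
    (isOpen_lt continuous_const c2).inter
      ((isOpen_lt continuous_const c3).inter (isOpen_lt c1 continuous_const))
  have h2 : 0 < volume {u : Y m | 0 < u.1.1 ∧ 0 < u.1.2 ∧ u.1.1 + u.1.2 + N u.2 < 1} := by
    refine h1.measure_pos volume ⟨((1 / 4, 1 / 4), 0), ?_⟩
    simp only [Set.mem_ofPred_eq, N_zero]
    norm_num
  have h3 : {u : Y m | 0 < u.1.1 ∧ 0 < u.1.2 ∧ u.1.1 + u.1.2 + N u.2 < 1} ⊆ P m :=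
    fun u hu => ⟨hu.1.le, hu.2.1.le, hu.2.2.le⟩
  exact (h2.trans_le (measure_mono h3)).ne'

/-- The triangle body is covered by three copies of `P`. -/
theorem K0_vol_le (m : ℕ) : volume (K0 m) ≤ 3 * volume (P m) := by
  have h1 : K0 m ⊆ P m ∪ (Lm m (0, 1) (-1, -1) '' P m ∪ Lm m (-1, -1) (1, 0) '' P m) := by
    rintro ⟨⟨x, y⟩, w⟩ hu
    rw [mem_K0] at hu
    obtain ⟨h1, h2, h3⟩ := hu
    simp only at h1 h2 h3
    by_cases hA : 0 ≤ x ∧ 0 ≤ y
    · exact Or.inl ⟨hA.1, hA.2, h1⟩
    · right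
      by_cases hB : x ≤ 0 ∧ x ≤ y
      · left
        refine ⟨((y - x, -x), w), ⟨by simp only; linarith [hB.2], by simp only; linarith [hB.1],
          by simp only; linarith⟩, ?_⟩
        rw [Lm_apply]
        ext <;> simp
      · right
        have hy : y ≤ 0 := by
          by_contra hcon
          push Not at hcon
          apply hB
          have hx : x < 0 := by
            by_contra hc
            push Not at hc
            exact hA ⟨hc, hcon.le⟩
          exact ⟨hx.le, by linarith⟩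
        have hxy : y ≤ x := by
          by_contra hcon
          push Not at hcon
          exact hB ⟨by linarith, hcon.le⟩
        refine ⟨((-y, x - y), w), ⟨by simp only; linarith, by simp only; linarith,
          by simp only; linarith⟩, ?_⟩
        rw [Lm_apply]
        ext <;> simp
  refine (measure_mono h1).trans ((measure_union_le _ _).trans ?_)
  refine (add_le_add_right (measure_union_le _ _) _).trans ?_
  rw [Measure.addHaar_image_linearMap, Measure.addHaar_image_linearMap, Lm_det, Lm_det]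
  norm_num
  refine le_of_eq ?_
  ring

/-- The six unit directions of the hexagon. -/
def vv : Fin 6 → ℝ × ℝ := ![(1, 0), (1, 1), (0, 1), (-1, 0), (-1, -1), (0, -1)]

/-- The scale factor. -/
noncomputable def ρ₀ : ℝ := 71 / 100

/-- The pieces of the hexagonal body. -/
noncomputable def piece (m : ℕ) (i : Fin 6) : Set (Y m) :=
  Lm m (ρ₀ • vv i) (ρ₀ • vv (i + 1)) '' P' m

theorem vv_det (i : Fin 6) : (ρ₀ • vv i).1 * (ρ₀ • vv (i + 1)).2 -
    (ρ₀ • vv i).2 * (ρ₀ • vv (i + 1)).1 = ρ₀ ^ 2 := by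
  fin_cases i <;> simp [vv] <;> ring

theorem piece_vol (m : ℕ) (i : Fin 6) :
    volume (piece m i) = ENNReal.ofReal (ρ₀ ^ 2) * volume (P m) := by
  unfold piece
  rw [Measure.addHaar_image_linearMap, Lm_det, vv_det, abs_of_nonneg (by positivity), P_vol]

theorem piece_meas (m : ℕ) (i : Fin 6) : MeasurableSet (piece m i) := by
  refine (P'_meas m).image_of_continuousOn_injOn
    (LinearMap.continuous_of_finiteDimensional _).continuousOn ?_
  refine (Lm_inj _ _ ?_).injOn
  rw [vv_det]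
  norm_num [ρ₀]

/-- The six sectors. -/
def sector (i : Fin 6) (z : ℝ × ℝ) : Prop :=
  match i with
  | 0 => z.2 < z.1 ∧ 0 ≤ z.2
  | 1 => z.1 ≤ z.2 ∧ 0 < z.1
  | 2 => z.1 ≤ 0 ∧ 0 < z.2
  | 3 => z.1 < z.2 ∧ z.2 ≤ 0
  | 4 => z.2 ≤ z.1 ∧ z.1 < 0
  | 5 => 0 ≤ z.1 ∧ z.2 < 0

theorem sector_disjoint {i j : Fin 6} {z : ℝ × ℝ} (hi : sector i z) (hj : sector j z) :
    i = j := by
  fin_cases i <;> fin_cases j <;> first | rfl | (exfalso; simp only [sector] at hi hj; linarith [hi.1, hi.2, hj.1, hj.2])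

theorem piece_sector {m : ℕ} {i : Fin 6} {u : Y m} (hu : u ∈ piece m i) : sector i u.1 := by
  obtain ⟨⟨⟨x, y⟩, w⟩, ⟨hx, hy, -⟩, rfl⟩ := hu
  simp only at hx hy
  rw [Lm_apply]
  fin_cases i <;> simp [vv, sector, ρ₀] <;> constructor <;> linarith

theorem pieces_vol (m : ℕ) :
    volume (⋃ i, piece m i) = 6 * (ENNReal.ofReal (ρ₀ ^ 2) * volume (P m)) := by
  rw [measure_iUnion]
  · rw [tsum_fintype]
    simp only [piece_vol, Finset.sum_const, Finset.card_univ, Fintype.card_fin, nsmul_eq_mul]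
    norm_num
  · intro i j hij
    refine Set.disjoint_left.2 fun u hi hj => hij ?_
    exact sector_disjoint (piece_sector hi) (piece_sector hj)
  · exact piece_meas m

theorem vol_lt (m : ℕ) : volume (K0 m) < volume (⋃ i, piece m i) := by
  refine (K0_vol_le m).trans_lt ?_
  rw [pieces_vol, ← mul_assoc]
  refine (ENNReal.mul_lt_mul_iff_left (P_pos m) (P_fin m)).2 ?_
  have h1 : (3 : ℝ≥0∞) = ENNReal.ofReal 3 := by simp
  have h2 : (6 : ℝ≥0∞) = ENNReal.ofReal 6 := by simp
  rw [h1, h2, ← ENNReal.ofReal_mul (by norm_num), ENNReal.ofReal_lt_ofReal_iff]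
  · norm_num [ρ₀]
  · norm_num [ρ₀]

/-! ### The contradiction -/

theorem K0_tri {m : ℕ} {x y : ℝ} {w : Fin m → ℝ} (h1 : x + y + N w ≤ 1)
    (h2 : -2 * x + y + N w ≤ 1) (h3 : x + -2 * y + N w ≤ 1) : ((x, y), w) ∈ K0 m :=
  mem_K0.2 ⟨h1, h2, h3⟩

theorem vertex {n m : ℕ} (hj : m + 2 ≤ n) {H : Submodule ℝ (E n)} {D : Set (E n) → Set (E n)}
    (hD : Ext H (m + 2) D) (Φ : Y m →ₗ[ℝ] E n) (hΦ : Function.Injective Φ) (σ : Fin m → ℝ)
    (hσ : ∀ k, |σ k| = 1) (hρ : ∀ z w, H.reflection (Φ (z, w)) = Φ (-z, σ * w))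
    (u v : ℝ × ℝ) (huv : u.1 * v.2 - u.2 * v.1 = 1)
    (hbox : ∀ x y : ℝ, ∀ w : Fin m → ℝ, x + y + N w ≤ 1 → -2 * x + y + N w ≤ 1 →
      x + -2 * y + N w ≤ 1 → Lm m u v ((x, y), w) ∈ K0 m) :
    Φ (ρ₀ • u, 0) ∈ D (Φ '' K0 m) := by
  have hK : Φ '' K0 m ∈ nonemptyCompactConvex n :=
    image_NC Φ (K0_compact m) (K0_convex m) (K0_ne m)
  have hη : (0 : ℝ) < 1 / (100 * (m + 2)) := by positivity
  have h1 := tube hj hD (Φ ∘ₗ Lm m u v)
    (by
      rw [LinearMap.coe_comp]
      exact hΦ.comp (Lm_inj u v (by rw [huv]; exact one_ne_zero))) σ hσ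
    (by
      rintro ⟨x, y⟩ w
      rw [LinearMap.comp_apply, LinearMap.comp_apply, Lm_apply, hρ]
      have h2 : (-((x, y) : ℝ × ℝ)) = (-x, -y) := rfl
      rw [h2, Lm_apply]
      congr 2
      ext
      · simp only [Prod.fst_neg]; ring
      · simp only [Prod.snd_neg]; ring) hK hη (p := 9 / 20) (q := 99 / 100) (by norm_num)
    (by norm_num)
    (by
      rintro _ ⟨⟨⟨x, y⟩, w⟩, hu, rfl⟩
      rw [LinearMap.comp_apply]
      refine ⟨_, ?_, rfl⟩
      rw [mem_Bx] at hu
      obtain ⟨⟨⟨a1, a2⟩, a3, a4⟩, a5⟩ := hu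
      simp only at a1 a2 a3 a4 a5
      have hN := N_le (w := w) (e := 1 / (100 * (m + 2))) (fun k => abs_le.2 (a5 k))
      have hm : (m : ℝ) * (1 / (100 * (m + 2))) + 2 * (1 / (100 * (m + 2))) = 1 / 100 := by
        field_simp
      refine hbox _ _ _ ?_ ?_ ?_ <;> linarith)
    (r := ρ₀) (by norm_num [ρ₀]) (by norm_num [ρ₀])
  rw [LinearMap.comp_apply, Lm_apply] at h1
  have h3 : ((ρ₀ * u.1 + 0 * v.1, ρ₀ * u.2 + 0 * v.2) : ℝ × ℝ) = ρ₀ • u := by
    ext <;> simp
  rw [h3] at h1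
  exact h1

theorem core {n m : ℕ} (hj : m + 2 ≤ n) {H : Submodule ℝ (E n)} {D : Set (E n) → Set (E n)}
    (hD : Ext H (m + 2) D) (Φ : Y m →ₗ[ℝ] E n) (hΦ : Function.Injective Φ) (σ : Fin m → ℝ)
    (hσ : ∀ k, |σ k| = 1) (hρ : ∀ z w, H.reflection (Φ (z, w)) = Φ (-z, σ * w)) : False := by
  have hK : Φ '' K0 m ∈ nonemptyCompactConvex n :=
    image_NC Φ (K0_compact m) (K0_convex m) (K0_ne m)
  have hDc := hD.convex _ hK
  -- the three vertices and their reflections
  have va : Φ (ρ₀ • (1, 0), 0) ∈ D (Φ '' K0 m) := by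
    refine vertex hj hD Φ hΦ σ hσ hρ (1, 0) (0, 1) (by norm_num) ?_
    intro x y w h1 h2 h3
    rw [Lm_apply]
    refine K0_tri ?_ ?_ ?_ <;> simp only <;> linarith
  have vb : Φ (ρ₀ • (0, 1), 0) ∈ D (Φ '' K0 m) := by
    refine vertex hj hD Φ hΦ σ hσ hρ (0, 1) (-1, -1) (by norm_num) ?_
    intro x y w h1 h2 h3
    rw [Lm_apply]
    refine K0_tri ?_ ?_ ?_ <;> simp only <;> linarith
  have vc : Φ (ρ₀ • (-1, -1), 0) ∈ D (Φ '' K0 m) := by
    refine vertex hj hD Φ hΦ σ hσ hρ (-1, -1) (1, 0) (by norm_num) ?_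
    intro x y w h1 h2 h3
    rw [Lm_apply]
    refine K0_tri ?_ ?_ ?_ <;> simp only <;> linarith
  have hneg : ∀ u : ℝ × ℝ, Φ (ρ₀ • u, 0) ∈ D (Φ '' K0 m) → Φ (ρ₀ • (-u), 0) ∈ D (Φ '' K0 m) := by
    intro u hu
    have h1 := hD.symm _ hK _ hu
    rw [hρ, mul_zero, ← smul_neg] at h1
    exact h1
  have hv : ∀ i : Fin 6, Φ (ρ₀ • vv i, 0) ∈ D (Φ '' K0 m) := by
    intro i
    fin_cases i
    · exact va
    · have := hneg _ vc
      simpa [vv] using this
    · exact vb
    · have := hneg _ va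
      simpa [vv] using this
    · exact vc
    · have := hneg _ vb
      simpa [vv] using this
  -- the fixed cross-polytope
  have hC : ∀ w : Fin m → ℝ, N w ≤ 1 → Φ (0, w) ∈ D (Φ '' K0 m) := by
    let C : Set (Y m) := {u | u.1 = 0} ∩ Hs m 0 0
    have hCc : IsCompact C := by
      refine (Bx_compact m 1 1 1).of_isClosed_subset
        ((isClosed_eq continuous_fst continuous_const).inter (Hs_closed m 0 0)) ?_
      rintro ⟨z, w⟩ ⟨h1, h2⟩
      simp only [Set.mem_ofPred_eq] at h1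
      subst h1
      simp only [Hs, Set.mem_ofPred_eq, zero_mul, zero_add] at h2
      rw [mem_Bx]
      refine ⟨⟨⟨by simp, by simp⟩, by simp, by simp⟩, fun k => ?_⟩
      have := N_coord w k
      exact abs_le.1 (by linarith)
    have hCv : Convex ℝ C := by
      refine Convex.inter ?_ (Hs_convex m 0 0)
      intro u hu v hv a b _ _ _
      simp only [Set.mem_ofPred_eq] at hu hv ⊢
      simp [hu, hv]
    have hCne : C.Nonempty := ⟨0, by simp, by simp [Hs, N_zero]⟩
    have hCN : Φ '' C ∈ nonemptyCompactConvex n := image_NC Φ hCc hCv hCne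
    have hCK : Φ '' C ⊆ Φ '' K0 m := by
      refine Set.image_mono ?_
      rintro ⟨z, w⟩ ⟨h1, h2⟩
      simp only [Set.mem_ofPred_eq] at h1
      subst h1
      simp only [Hs, Set.mem_ofPred_eq, zero_mul, zero_add] at h2
      rw [mem_K0]
      simp only [Prod.fst_zero, Prod.snd_zero]
      refine ⟨?_, ?_, ?_⟩ <;> linarith
    have hCD : D (Φ '' C) = Φ '' C := by
      refine hD.inv _ hCN ?_
      rintro _ ⟨⟨z, w⟩, ⟨h1, h2⟩, rfl⟩
      simp only [Set.mem_ofPred_eq] at h1
      subst h1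
      rw [hρ]
      refine ⟨_, ⟨by simp, ?_⟩, rfl⟩
      simp only [Hs, Set.mem_ofPred_eq, zero_mul, zero_add] at h2 ⊢
      rw [N_mul hσ]
      exact h2
    intro w hw
    have h1 := hD.mono _ hCN _ hK hCK
    rw [hCD] at h1
    exact h1 ⟨(0, w), ⟨rfl, by simpa [Hs] using hw⟩, rfl⟩
  have h0 : Φ 0 ∈ D (Φ '' K0 m) := hC 0 (by rw [N_zero]; exact zero_le_one)
  have hsub : Φ '' (⋃ i, piece m i) ⊆ D (Φ '' K0 m) := by
    rintro _ ⟨u, hu, rfl⟩
    rw [Set.mem_iUnion] at hu
    obtain ⟨i, ⟨⟨x, y⟩, w⟩, ⟨hx, hy, hxy⟩, rfl⟩ := hu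
    simp only at hx hy hxy
    have hN0 := N_nonneg w
    -- the point in the fixed cross-polytope
    obtain ⟨w', hw', hw2⟩ : ∃ w' : Fin m → ℝ, N w' ≤ 1 ∧ w = (1 - x - y) • w' := by
      rcases (show 0 ≤ 1 - x - y by linarith).eq_or_lt with h | h
      · refine ⟨0, by rw [N_zero]; exact zero_le_one, ?_⟩
        have hN1 : N w = 0 := by linarith
        rw [smul_zero]
        ext k
        have := N_coord w k
        rw [hN1] at this
        simpa using this
      · refine ⟨(1 - x - y)⁻¹ • w, ?_, ?_⟩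
        · rw [N_smul, abs_of_pos (by positivity), inv_mul_le_iff₀ h]
          linarith
        · rw [smul_smul, mul_inv_cancel₀ h.ne', one_smul]
    have h1 := hDc.sum_mem (t := Finset.univ) (w := ![x, y, 1 - x - y])
      (z := ![Φ (ρ₀ • vv i, 0), Φ (ρ₀ • vv (i + 1), 0), Φ (0, w')])
      (by
        intro k _
        fin_cases k
        · exact hx.le
        · exact hy
        · simp; linarith)
      (by simp [Fin.sum_univ_three])
      (by
        intro k _
        fin_cases k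
        · exact hv i
        · exact hv (i + 1)
        · exact hC w' hw')
    rw [Fin.sum_univ_three] at h1
    change x • Φ (ρ₀ • vv i, 0) + y • Φ (ρ₀ • vv (i + 1), 0) + (1 - x - y) • Φ (0, w') ∈
      D (Φ '' K0 m) at h1
    rw [← map_smul, ← map_smul, ← map_smul, ← map_add, ← map_add] at h1
    have h2 : (x • ((ρ₀ • vv i, 0) : Y m) + y • ((ρ₀ • vv (i + 1), 0) : Y m) +
        (1 - x - y) • ((0, w') : Y m)) = Lm m (ρ₀ • vv i) (ρ₀ • vv (i + 1)) ((x, y), w) := by
      rw [Lm_apply, hw2]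
      ext <;> simp
    rw [h2] at h1
    exact h1
  have hY : finrank ℝ (Y m) = m + 2 := by simp [add_comm]
  obtain ⟨c, hc0, hct, hc⟩ := V_linear hj (volume : Measure (Y m)) hY Φ hΦ
  have h3 := V_mono (j := m + 2) hsub
  rw [hD.pres _ hK, hc, hc, ENNReal.mul_le_mul_iff_right hc0 hct] at h3
  exact absurd h3 (not_le.2 (vol_lt m))

/-- Coordinates adapted to `H`: if `dim H ≤ n - 2` there is an injective linear map from the
parameter space whose first two directions are orthogonal to `H` and whose other directions lie in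
`H` or in its orthogonal complement. -/
theorem exists_coord {n m : ℕ} (hj : m + 2 ≤ n) (H : Submodule ℝ (E n))
    (hH : finrank ℝ H + 2 ≤ n) : ∃ (Φ : Y m →ₗ[ℝ] E n) (σ : Fin m → ℝ),
      Function.Injective Φ ∧ (∀ k, |σ k| = 1) ∧
      ∀ z w, H.reflection (Φ (z, w)) = Φ (-z, σ * w) := by
  classical
  have hdim : finrank ℝ H + finrank ℝ Hᗮ = n := by
    rw [H.finrank_add_finrank_orthogonal]; simp
  let bG := finBasis ℝ Hᗮ
  let bH := finBasis ℝ H
  let B : Fin (finrank ℝ Hᗮ) ⊕ Fin (finrank ℝ H) → E n :=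
    Sum.elim (fun i => (bG i : E n)) (fun i => (bH i : E n))
  have hB : LinearIndependent ℝ B := by
    refine LinearIndependent.sum_type ?_ ?_ ?_
    · exact bG.linearIndependent.map' (Hᗮ).subtype (Submodule.ker_subtype _)
    · exact bH.linearIndependent.map' H.subtype (Submodule.ker_subtype _)
    · refine H.orthogonal_disjoint.symm.mono ?_ ?_
      · rw [Submodule.span_le]
        rintro _ ⟨i, rfl⟩
        exact (bG i).2
      · rw [Submodule.span_le]
        rintro _ ⟨i, rfl⟩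
        exact (bH i).2
  let a : Fin (finrank ℝ Hᗮ) ⊕ Fin (finrank ℝ H) := Sum.inl ⟨0, by omega⟩
  let b : Fin (finrank ℝ Hᗮ) ⊕ Fin (finrank ℝ H) := Sum.inl ⟨1, by omega⟩
  have hab : a ≠ b := by simp [a, b]
  let t : Finset (Fin (finrank ℝ Hᗮ) ⊕ Fin (finrank ℝ H)) := Finset.univ \ {a, b}
  have ht : m ≤ t.card := by
    have h1 := Finset.le_card_sdiff {a, b} (Finset.univ : Finset
      (Fin (finrank ℝ Hᗮ) ⊕ Fin (finrank ℝ H)))
    have h2 : ({a, b} : Finset (Fin (finrank ℝ Hᗮ) ⊕ Fin (finrank ℝ H))).card = 2 :=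
      Finset.card_pair hab
    rw [h2, Finset.card_univ, Fintype.card_sum, Fintype.card_fin, Fintype.card_fin] at h1
    change m ≤ (Finset.univ \ {a, b}).card
    omega
  obtain ⟨e⟩ : Nonempty (Fin m ↪ t) := by
    refine Function.Embedding.nonempty_of_card_le ?_
    rw [Fintype.card_fin, Fintype.card_coe]
    exact ht
  have he : ∀ k, (e k : Fin (finrank ℝ Hᗮ) ⊕ Fin (finrank ℝ H)) ≠ a ∧
      (e k : Fin (finrank ℝ Hᗮ) ⊕ Fin (finrank ℝ H)) ≠ b := by
    intro k
    have := (e k).2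
    simp only [t, Finset.mem_sdiff, Finset.mem_univ, true_and, Finset.mem_insert,
      Finset.mem_singleton, not_or] at this
    exact this
  let ι : Fin 2 ⊕ Fin m → Fin (finrank ℝ Hᗮ) ⊕ Fin (finrank ℝ H) :=
    Sum.elim ![a, b] (fun k => e k)
  have hι : Function.Injective ι := by
    rintro (x | x) (y | y) hxy
    · fin_cases x <;> fin_cases y <;> first | rfl | (exfalso; exact hab hxy) |
        (exfalso; exact hab hxy.symm)
    · exfalso
      fin_cases x
      · exact (he y).1 hxy.symm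
      · exact (he y).2 hxy.symm
    · exfalso
      fin_cases y
      · exact (he x).1 hxy
      · exact (he x).2 hxy
    · exact congrArg Sum.inr (e.injective (Subtype.ext hxy))
  have hf : LinearIndependent ℝ (B ∘ ι) := hB.comp ι hι
  let Φ : Y m →ₗ[ℝ] E n :=
    { toFun := fun u => u.1.1 • B a + u.1.2 • B b + ∑ k, u.2 k • B (e k)
      map_add' := by
        intro u v
        simp only [Prod.fst_add, Prod.snd_add, add_smul, Pi.add_apply, Finset.sum_add_distrib]
        abel
      map_smul' := by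
        intro c u
        simp only [Prod.smul_fst, Prod.smul_snd, smul_eq_mul, Pi.smul_apply, mul_smul, smul_add,
          Finset.smul_sum, RingHom.id_apply] }
  have hΦa : ∀ u : Y m, Φ u = u.1.1 • B a + u.1.2 • B b + ∑ k, u.2 k • B (e k) := fun u => rfl
  let σ : Fin m → ℝ := fun k => Sum.elim (fun _ => (-1 : ℝ)) (fun _ => 1)
    (e k : Fin (finrank ℝ Hᗮ) ⊕ Fin (finrank ℝ H))
  have hrB : ∀ s, H.reflection (B s) =
      (Sum.elim (fun _ => (-1 : ℝ)) (fun _ => 1) s : ℝ) • B s := by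
    rintro (s | s)
    · simp only [B, Sum.elim_inl]
      rw [Submodule.reflection_mem_subspace_orthogonalComplement_eq_neg (bG s).2]
      simp
    · simp only [B, Sum.elim_inr]
      rw [Submodule.reflection_mem_subspace_eq_self (bH s).2]
      simp
  refine ⟨Φ, σ, ?_, ?_, ?_⟩
  · rw [← LinearMap.ker_eq_bot, LinearMap.ker_eq_bot']
    intro u hu
    rw [hΦa] at hu
    have h1 := Fintype.linearIndependent_iff.1 hf (Sum.elim ![u.1.1, u.1.2] u.2) (by
      rw [Fintype.sum_sum_type, Fin.sum_univ_two]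
      exact hu)
    have h2 := h1 (Sum.inl 0)
    have h3 := h1 (Sum.inl 1)
    have h4 : ∀ k, u.2 k = 0 := fun k => h1 (Sum.inr k)
    ext k
    · exact h2
    · exact h3
    · exact h4 k
  · intro k
    change |Sum.elim (fun _ => (-1 : ℝ)) (fun _ => 1)
      (e k : Fin (finrank ℝ Hᗮ) ⊕ Fin (finrank ℝ H))| = 1
    rcases (e k : Fin (finrank ℝ Hᗮ) ⊕ Fin (finrank ℝ H)) with s | s <;> simp
  · intro z w
    rw [hΦa, hΦa, map_add, map_add, map_sum]
    simp only [map_smul, hrB]
    congr 1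
    · congr 1
      · simp [a]
      · simp [b]
    · refine Finset.sum_congr rfl fun k _ => ?_
      rw [smul_smul, Pi.mul_apply, mul_comm]

/-- **No symmetrization.** -/
theorem result (n i j : ℕ) (hi : i + 2 ≤ n) (hj : 2 ≤ j) (hjn : j ≤ n) (H : Submodule ℝ (E n))
    (hH : finrank ℝ H = i) (𝓑 : Set (Set (E n)))
    (h𝓑 : 𝓑 = compactConvex n ∨ 𝓑 = nonemptyCompactConvex n ∨ 𝓑 = convexBodies n) :
    ¬ ∃ D : Set (E n) → Set (E n), GoodSymmetrization 𝓑 H j D := by
  rintro ⟨D, hD⟩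
  obtain ⟨m, rfl⟩ : ∃ m, j = m + 2 := ⟨j - 2, by omega⟩
  have hbody : ∀ K ∈ convexBodies n, K ∈ 𝓑 := by
    intro K hK
    rcases h𝓑 with rfl | rfl | rfl
    · exact ⟨hK.1, hK.2.1⟩
    · exact ⟨hK.1, hK.2.1, hK.2.2.mono interior_subset⟩
    · exact hK
  have hcc : ∀ K ∈ 𝓑, IsCompact K ∧ Convex ℝ K := by
    intro K hK
    rcases h𝓑 with rfl | rfl | rfl
    · exact hK
    · exact ⟨hK.1, hK.2.1⟩
    · exact ⟨hK.1, hK.2.1⟩
  obtain ⟨D', hD'⟩ := exists_ext hjn H D
    (fun K hK => ⟨(hcc _ (hD.maps _ (hbody K hK)).1).1, (hcc _ (hD.maps _ (hbody K hK)).1).2,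
      (hD.maps _ (hbody K hK)).2⟩)
    (fun K hK L hL => hD.monotonic K (hbody K hK) L (hbody L hL))
    (fun K hK => hD.preserves K (hbody K hK))
    (fun K hK => hD.invariant K (hbody K hK))
  obtain ⟨Φ, σ, hΦ, hσ, hρ⟩ := exists_coord hjn H (by rw [hH]; exact hi)
  exact core hjn hD' Φ hΦ σ hσ hρ

end Pool.Agent.Results.MP_b62b68_gt.NoSymmetrization
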